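import Mathlib

set_option autoImplicit false

/-! # MP_8dd8b0_nt: power-saving bound for the exceptional products of two primes

The number of `n ≤ N` that are a product of two distinct odd primes and satisfy
`C(n-1,(n-1)/2) ≡ (-1)^((n-1)/2) (mod n)` is at most `3648 * N^(6/7)`.

Plan. Write `u_s(i) = (-1)^i C(2i,i)` in `ZMod s`. By Lucas, `n = pq` has the property iff
`u_q((p-1)/2) = 1` and `u_p((q-1)/2) = 1`. Let `p < q`.
* For a given `p` all the `q` divide `C(p-1,(p-1)/2) - (-1)^((p-1)/2)`, so there are at most `p` of them.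
* For a given `p` write `(q-1)/2 = kp + j`; Lucas gives `2j < p` and `u_p(k) u_p(j) = 1`. The equation
  `u_p(j) = u_p(j+h)` leads to a nonzero polynomial of degree at most `h` over `ZMod p`, so `u_p(j) = c`
  has `O(p^(2/3))` solutions `j < p`.
The first bound is used for `p ≤ N^(3/7)`, the second one for the other `p ≤ N^(1/2)`. -/

namespace Pool.Agent.Results.MP_8dd8b0_nt.FewExceptions

open Finset Polynomial

/-- signed central binomial -/
def u (p i : ℕ) : ZMod p := (-1) ^ i * (Nat.centralBinom i : ZMod p)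

lemma u_succ (p i : ℕ) : u p (i + 1) * ((i : ZMod p) + 1) = -(4 * (i : ZMod p) + 2) * u p i := by
  have h := Nat.succ_mul_centralBinom_succ i
  have h2 : ((i : ZMod p) + 1) * (Nat.centralBinom (i + 1) : ZMod p) =
      2 * (2 * (i : ZMod p) + 1) * (Nat.centralBinom i : ZMod p) := by exact_mod_cast congrArg (Nat.cast (R := ZMod p)) h
  unfold u
  rw [pow_succ]
  linear_combination (-(-1 : ZMod p) ^ i) * h2

lemma u_add (p i h : ℕ) : u p (i + h) * ∏ t ∈ range h, ((i : ZMod p) + t + 1) =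
    (∏ t ∈ range h, (-(4 * ((i : ZMod p) + t) + 2))) * u p i := by
  induction h with
  | zero => simp
  | succ h ih =>
    rw [prod_range_succ, prod_range_succ]
    have h1 := u_succ p (i + h)
    push_cast at h1
    rw [← add_assoc]
    calc u p (i + h + 1) * ((∏ t ∈ range h, ((i : ZMod p) + t + 1)) * ((i : ZMod p) + h + 1))
        = (u p (i + h + 1) * ((i : ZMod p) + h + 1)) * (∏ t ∈ range h, ((i : ZMod p) + t + 1)) := by ring
      _ = (-(4 * ((i : ZMod p) + h) + 2)) * (u p (i + h) * ∏ t ∈ range h, ((i : ZMod p) + t + 1)) := by rw [h1]; ring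
      _ = _ := by rw [ih]; ring

noncomputable def F (p h : ℕ) : (ZMod p)[X] :=
  (∏ t ∈ range h, (C (-4) * X + C (-(4 * (t : ZMod p) + 2)))) - ∏ t ∈ range h, (X + C ((t : ZMod p) + 1))

lemma F_eval (p h : ℕ) (x : ZMod p) : (F p h).eval x =
    (∏ t ∈ range h, (-(4 * (x + t) + 2))) - ∏ t ∈ range h, (x + t + 1) := by
  unfold F
  rw [eval_sub, eval_prod, eval_prod]
  congr 1
  · apply prod_congr rfl; intro t _; simp; ring
  · apply prod_congr rfl; intro t _; simp; ring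

lemma F_deg (p h : ℕ) [Fact p.Prime] : (F p h).natDegree ≤ h := by
  have h1 : ∀ t ∈ range h, (C (-4 : ZMod p) * X + C (-(4 * (t : ZMod p) + 2))).natDegree ≤ 1 :=
    fun t _ => natDegree_linear_le
  have h2 : ∀ t ∈ range h, ((X : (ZMod p)[X]) + C ((t : ZMod p) + 1)).natDegree ≤ 1 :=
    fun t _ => (natDegree_X_add_C _).le
  unfold F
  refine (natDegree_sub_le _ _).trans (max_le ?_ ?_)
  · refine (natDegree_prod_le (range h) _).trans ((sum_le_card_nsmul _ _ 1 h1).trans ?_)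
    simp
  · refine (natDegree_prod_le (range h) _).trans ((sum_le_card_nsmul _ _ 1 h2).trans ?_)
    simp

lemma F_ne (p h : ℕ) [Fact p.Prime] (h0 : 0 < h) (hp : 2 * h < p) : F p h ≠ 0 := by
  intro hF
  have h1 := F_eval p h (-1)
  rw [hF, eval_zero] at h1
  have h2 : ∏ t ∈ range h, ((-1 : ZMod p) + t + 1) = 0 := by
    apply prod_eq_zero (i := 0) (mem_range.2 h0); simp
  rw [h2, sub_zero] at h1
  have h3 := prod_eq_zero_iff.1 h1.symm
  obtain ⟨t, ht, h4⟩ := h3
  rw [mem_range] at ht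
  have h5 : ((2 - 4 * (t : ℤ) : ℤ) : ZMod p) = 0 := by
    push_cast; linear_combination h4
  rw [ZMod.intCast_zmod_eq_zero_iff_dvd] at h5
  have hpr : p.Prime := Fact.out
  have h6 : (p : ℤ) ∣ 2 * (1 - 2 * (t : ℤ)) := by convert h5 using 1; ring
  have hodd : ¬ (p : ℤ) ∣ 2 := by
    intro hd
    have := Int.le_of_dvd (by norm_num) hd
    omega
  rcases (Nat.prime_iff_prime_int.1 hpr).dvd_or_dvd h6 with h7 | h7
  · exact hodd h7
  · obtain ⟨c, hc⟩ := h7
    have hc0 : c ≠ 0 := by rintro rfl; omega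
    rcases lt_or_gt_of_ne hc0 with h8 | h8
    · have : (p : ℤ) * c ≤ -p := by nlinarith
      omega
    · have : (p : ℤ) * c ≥ p := by nlinarith
      omega

lemma pair_count (p h : ℕ) [Fact p.Prime] (h0 : 0 < h) (hp : 2 * h < p) (c : ZMod p) (hc : c ≠ 0)
    (S : Finset ℕ) (hS : ∀ j ∈ S, j < p) (hS1 : ∀ j ∈ S, u p j = c) :
    (S.filter (fun j => j + h ∈ S)).card ≤ h := by
  have h1 : (S.filter (fun j => j + h ∈ S)).card ≤ (F p h).roots.toFinset.card := by
    apply card_le_card_of_injOn (fun j : ℕ => (j : ZMod p))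
    · intro j hj
      rw [mem_coe, mem_filter] at hj
      rw [mem_coe, Multiset.mem_toFinset, mem_roots (F_ne p h h0 hp), IsRoot, F_eval]
      have h2 := u_add p j h
      rw [hS1 _ hj.1, hS1 _ hj.2] at h2
      have h3 : c * (∏ t ∈ range h, ((j : ZMod p) + t + 1)) = c * ∏ t ∈ range h, (-(4 * ((j : ZMod p) + t) + 2)) := by
        rw [h2, mul_comm]
      rw [mul_left_cancel₀ hc h3, sub_self]
    · intro i hi j hj hij
      rw [mem_coe, mem_filter] at hi hj
      have h3 := (ZMod.natCast_eq_natCast_iff' i j p).1 hij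
      rwa [Nat.mod_eq_of_lt (hS _ hi.1), Nat.mod_eq_of_lt (hS _ hj.1)] at h3
  exact h1.trans ((Multiset.toFinset_card_le _).trans ((card_roots' _).trans (F_deg p h)))

lemma block_count (S : Finset ℕ) (L H : ℕ) (hH : 0 < H) (hS : ∀ j ∈ S, j < L)
    (hp : ∀ h, 0 < h → h < H → (S.filter (fun j => j + h ∈ S)).card ≤ h) :
    S.card ≤ L / H + 1 + ∑ h ∈ range H, h := by
  classical
  have h1 : S ⊆ (S.filter (fun j => ∀ h, 0 < h → h < H → j + h ∉ S)) ∪
      ((range H).biUnion fun h => if h = 0 then ∅ else S.filter (fun j => j + h ∈ S)) := by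
    intro j hj
    by_cases hh : ∀ h, 0 < h → h < H → j + h ∉ S
    · exact mem_union_left _ (mem_filter.2 ⟨hj, hh⟩)
    · push Not at hh
      obtain ⟨h, ha, hb, hc⟩ := hh
      refine mem_union_right _ (mem_biUnion.2 ⟨h, mem_range.2 hb, ?_⟩)
      rw [if_neg (by omega)]
      exact mem_filter.2 ⟨hj, hc⟩
  refine (card_le_card h1).trans ((card_union_le _ _).trans (add_le_add ?_ ?_))
  · rw [← card_range (L / H + 1)]
    apply card_le_card_of_injOn (fun j => j / H)
    · intro j hj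
      rw [mem_coe, mem_filter] at hj
      rw [mem_coe, mem_range]
      have := Nat.div_le_div_right (c := H) (hS j hj.1).le
      show j / H < L / H + 1
      omega
    · intro i hi j hj hij
      rw [mem_coe, mem_filter] at hi hj
      change i / H = j / H at hij
      have e1 := Nat.div_add_mod i H
      have e2 := Nat.div_add_mod j H
      have m1 := Nat.mod_lt i hH
      have m2 := Nat.mod_lt j hH
      rw [hij] at e1
      by_contra hne
      rcases lt_or_gt_of_ne hne with hlt | hlt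
      · exact hi.2 (j - i) (by omega) (by omega) (by rw [Nat.add_sub_cancel' hlt.le]; exact hj.1)
      · exact hj.2 (i - j) (by omega) (by omega) (by rw [Nat.add_sub_cancel' hlt.le]; exact hi.1)
  · refine card_biUnion_le.trans (sum_le_sum ?_)
    intro h hh
    rw [mem_range] at hh
    split_ifs with h0
    · simp
    · exact hp h (Nat.pos_of_ne_zero h0) hh

lemma choose_pred (p : ℕ) [Fact p.Prime] (k : ℕ) (hk : k < p) : ((Nat.choose (p - 1) k : ℕ) : ZMod p) = (-1) ^ k := by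
  have hpr : p.Prime := Fact.out
  induction k with
  | zero => simp
  | succ k ih =>
    have h1 : Nat.choose p (k + 1) = Nat.choose (p - 1) k + Nat.choose (p - 1) (k + 1) := by
      conv_lhs => rw [show p = (p - 1) + 1 from by have := hpr.pos; omega]
      exact Nat.choose_succ_succ _ _
    have h2 : p ∣ Nat.choose p (k + 1) := hpr.dvd_choose_self (by omega) hk
    have h3 : ((Nat.choose p (k + 1) : ℕ) : ZMod p) = 0 := (ZMod.natCast_eq_zero_iff _ _).2 h2
    rw [h1, Nat.cast_add, ih (by omega)] at h3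
    rw [pow_succ]
    linear_combination h3

/-- the congruence of the problem for `p * q` -/
def Cong (p q : ℕ) : Prop :=
  (Nat.choose (p * q - 1) ((p * q - 1) / 2) : ℤ) ≡ (-1 : ℤ) ^ ((p * q - 1) / 2) [ZMOD ((p * q : ℕ) : ℤ)]

lemma lucas (p k j : ℕ) [Fact p.Prime] (hp : Odd p) (hj : j < p) :
    u p (k * p + j) = if 2 * j < p then u p k * u p j else 0 := by
  have hpr : p.Prime := Fact.out
  have hpos := hpr.pos
  have hL := (ZMod.natCast_eq_natCast_iff _ _ p).2 (Choose.choose_modEq_choose_mod_mul_choose_div_nat (p := p) (n := 2 * (k * p + j)) (k := k * p + j))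
  have d1 : (k * p + j) / p = k := by
    rw [Nat.add_comm, Nat.add_mul_div_right _ _ hpos, Nat.div_eq_of_lt hj, zero_add]
  have d2 : (k * p + j) % p = j := by
    rw [Nat.add_comm, Nat.add_mul_mod_self_right, Nat.mod_eq_of_lt hj]
  rw [d1, d2] at hL
  have e : 2 * (k * p + j) = 2 * j + (2 * k) * p := by ring
  unfold u
  rw [Nat.centralBinom_eq_two_mul_choose, hL, Nat.centralBinom_eq_two_mul_choose, Nat.centralBinom_eq_two_mul_choose]
  split_ifs with h
  · have d3 : (2 * (k * p + j)) / p = 2 * k := by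
      rw [e, Nat.add_mul_div_right _ _ hpos, Nat.div_eq_of_lt h, zero_add]
    have d4 : (2 * (k * p + j)) % p = 2 * j := by
      rw [e, Nat.add_mul_mod_self_right, Nat.mod_eq_of_lt h]
    rw [d3, d4, pow_add, mul_comm k p, pow_mul, hp.neg_one_pow]
    push_cast
    ring
  · have d4 : (2 * (k * p + j)) % p = 2 * j - p := by
      rw [e, Nat.add_mul_mod_self_right, Nat.mod_eq_sub_mod (by omega), Nat.mod_eq_of_lt (by omega)]
    rw [d4, Nat.choose_eq_zero_of_lt (by omega : 2 * j - p < j)]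
    simp

lemma red (r s : ℕ) (hs : s.Prime) (hro : Odd r) (hso : Odd s) (hC : Cong r s) : u s ((r - 1) / 2) = 1 := by
  have : Fact s.Prime := ⟨hs⟩
  obtain ⟨a, rfl⟩ := hro
  have hso' := hso
  obtain ⟨b, rfl⟩ := hso
  have e1 : (2 * a + 1) * (2 * b + 1) - 1 = 2 * (a * (2 * b + 1) + b) := by
    have : (2 * a + 1) * (2 * b + 1) = 2 * (a * (2 * b + 1) + b) + 1 := by ring
    omega
  have e2 : ((2 * a + 1) * (2 * b + 1) - 1) / 2 = a * (2 * b + 1) + b := by rw [e1]; omega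
  have e3 : (2 * a + 1 - 1) / 2 = a := by omega
  unfold Cong at hC
  rw [e2, e1] at hC
  rw [e3]
  have hd := Int.modEq_iff_dvd.1 hC
  have hd2 : ((2 * b + 1 : ℕ) : ℤ) ∣ (-1 : ℤ) ^ (a * (2 * b + 1) + b) -
      (Nat.choose (2 * (a * (2 * b + 1) + b)) (a * (2 * b + 1) + b) : ℤ) :=
    dvd_trans ⟨((2 * a + 1 : ℕ) : ℤ), by push_cast; ring⟩ hd
  have h0 := (ZMod.intCast_zmod_eq_zero_iff_dvd _ (2 * b + 1)).2 hd2
  rw [← Nat.centralBinom_eq_two_mul_choose] at h0
  have h1 : u (2 * b + 1) (a * (2 * b + 1) + b) = 1 := by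
    unfold u
    have h2 : (Nat.centralBinom (a * (2 * b + 1) + b) : ZMod (2 * b + 1)) = (-1) ^ (a * (2 * b + 1) + b) := by
      push_cast at h0
      linear_combination -h0
    rw [h2, ← mul_pow]
    simp
  rw [lucas (2 * b + 1) a b hso' (by omega), if_pos (by omega)] at h1
  have h4 : u (2 * b + 1) b = 1 := by
    unfold u
    have h5 := choose_pred (2 * b + 1) b (by omega)
    rw [show 2 * b + 1 - 1 = 2 * b from by omega, ← Nat.centralBinom_eq_two_mul_choose] at h5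
    rw [h5, ← mul_pow]
    simp
  rwa [h4, mul_one] at h1

lemma small_count (p : ℕ) (h3 : 3 ≤ p) (ho : Odd p) (T : Finset ℕ)
    (hT : ∀ q ∈ T, q.Prime ∧ u q ((p - 1) / 2) = 1) : T.card ≤ p := by
  obtain ⟨a, rfl⟩ := ho
  have e3 : (2 * a + 1 - 1) / 2 = a := by omega
  rw [e3] at hT
  have ha : 1 ≤ a := by omega
  have hcb : 2 ≤ Nat.centralBinom a := Nat.two_le_centralBinom a (by omega)
  have hcb2 : Nat.centralBinom a < 4 ^ a := Nat.centralBinom_lt_four_pow (by omega)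
  obtain ⟨D, hD⟩ : ∃ D : ℤ, D = Nat.centralBinom a - (-1) ^ a := ⟨_, rfl⟩
  have hD1 : D ≠ 0 ∧ D.natAbs ≤ 4 ^ a := by
    have hz : ((Nat.centralBinom a : ℕ) : ℤ) < ((4 ^ a : ℕ) : ℤ) := by exact_mod_cast hcb2
    have hz2 : (2 : ℤ) ≤ (Nat.centralBinom a : ℤ) := by exact_mod_cast hcb
    rcases neg_one_pow_eq_or ℤ a with h | h <;> rw [h] at hD <;> constructor <;> omega
  have hsub : T ⊆ D.natAbs.primeFactors := by
    intro q hq
    obtain ⟨h1, h2⟩ := hT q hq
    rw [Nat.mem_primeFactors]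
    refine ⟨h1, ?_, by simpa using hD1.1⟩
    rw [← Int.natCast_dvd]
    rw [← ZMod.intCast_zmod_eq_zero_iff_dvd, hD]
    push_cast
    unfold u at h2
    have h6 : ((-1 : ZMod q) ^ a) * (-1) ^ a = 1 := by rw [← mul_pow]; simp
    linear_combination ((-1 : ZMod q) ^ a) * h2 - (Nat.centralBinom a : ZMod q) * h6
  have h7 : 2 ^ T.card ≤ ∏ q ∈ T, q := pow_card_le_prod T (fun q => q) 2 fun q hq => (hT q hq).1.two_le
  have h8 : (∏ q ∈ T, q) ∣ D.natAbs :=
    (prod_dvd_prod_of_subset _ _ _ hsub).trans (Nat.prod_primeFactors_dvd _)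
  have h9 := Nat.le_of_dvd (by have := hD1.1; omega) h8
  have h10 : 2 ^ T.card ≤ 2 ^ (2 * a) := by
    calc 2 ^ T.card ≤ D.natAbs := h7.trans h9
      _ ≤ 4 ^ a := hD1.2
      _ = 2 ^ (2 * a) := by rw [pow_mul]; norm_num
  have := (Nat.pow_le_pow_iff_right (by norm_num : 1 < 2)).1 h10
  omega

/-- for a fixed odd prime `p`, few `i` in a range have `u p i = 1` -/
lemma large_count (p H Z : ℕ) [Fact p.Prime] (ho : Odd p) (hH : 0 < H) (hHp : 2 * H < p) (T : Finset ℕ)
    (hT : ∀ i ∈ T, i ≤ Z ∧ u p i = 1) :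
    T.card ≤ (Z / p + 1) * (p / H + 1 + ∑ h ∈ range H, h) := by
  classical
  have hpr : p.Prime := Fact.out
  have hpos := hpr.pos
  have h1 : ∀ k ∈ range (Z / p + 1), (T.filter (fun i => i / p = k)).card ≤ p / H + 1 + ∑ h ∈ range H, h := by
    intro k _
    have key : ∀ i ∈ T, i / p = k → u p k * u p (i % p) = 1 ∧ 2 * (i % p) < p := by
      intro i hi hik
      have hm := Nat.mod_lt i hpos
      have h2 := lucas p k (i % p) ho hm
      have h3 : k * p + i % p = i := by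
        rw [← hik, mul_comm]; exact Nat.div_add_mod i p
      rw [h3, (hT i hi).2] at h2
      split_ifs at h2 with h4
      · exact ⟨h2.symm, h4⟩
      · exact absurd h2 one_ne_zero
    by_cases hk : u p k = 0
    · have : T.filter (fun i => i / p = k) = ∅ := by
        apply filter_eq_empty_iff.2
        intro i hi hik
        have := (key i hi hik).1
        rw [hk, zero_mul] at this
        exact zero_ne_one this
      rw [this]; simp
    · have hcard : (T.filter (fun i => i / p = k)).card = ((T.filter (fun i => i / p = k)).image (fun i => i % p)).card := by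
        rw [card_image_of_injOn]
        intro i hi j hj hij
        rw [mem_coe, mem_filter] at hi hj
        change i % p = j % p at hij
        have e1 := Nat.div_add_mod i p
        have e2 := Nat.div_add_mod j p
        rw [hi.2] at e1
        rw [hj.2] at e2
        omega
      rw [hcard]
      have hmem : ∀ j ∈ (T.filter (fun i => i / p = k)).image (fun i => i % p), j < p ∧ u p j = (u p k)⁻¹ := by
        intro j hj
        rw [mem_image] at hj
        obtain ⟨i, hi, rfl⟩ := hj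
        rw [mem_filter] at hi
        refine ⟨Nat.mod_lt i hpos, ?_⟩
        have := (key i hi.1 hi.2).1
        exact (inv_eq_of_mul_eq_one_right this).symm
      apply block_count _ p H hH (fun j hj => (hmem j hj).1)
      intro h h0 hh
      exact pair_count p h h0 (by omega) (u p k)⁻¹ (inv_ne_zero hk) _ (fun j hj => (hmem j hj).1)
        (fun j hj => (hmem j hj).2)
  have h2 : T.card = ∑ k ∈ range (Z / p + 1), (T.filter (fun i => i / p = k)).card := by
    apply card_eq_sum_card_fiberwise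
    intro i hi
    rw [mem_coe] at hi
    rw [mem_coe, mem_range]
    have := Nat.div_le_div_right (c := p) (hT i hi).1
    show i / p < Z / p + 1
    omega
  rw [h2]
  refine (sum_le_sum h1).trans ?_
  simp

lemma cong_symm {p q : ℕ} (h : Cong p q) : Cong q p := by
  unfold Cong at *
  rwa [mul_comm q p]

/-- the larger primes that go with the smaller prime `p` -/
noncomputable def T (N p : ℕ) : Finset ℕ := by
  classical
  exact (range (N + 1)).filter (fun q => p.Prime ∧ Odd p ∧ q.Prime ∧ Odd q ∧ p < q ∧ p * q ≤ N ∧ Cong p q)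

lemma mem_T {N p q : ℕ} (h : q ∈ T N p) :
    p.Prime ∧ Odd p ∧ q.Prime ∧ Odd q ∧ p < q ∧ p * q ≤ N ∧ Cong p q := by
  classical
  unfold T at h
  exact (mem_filter.1 h).2

lemma three_le {p : ℕ} (hp : p.Prime) (ho : Odd p) : 3 ≤ p := by
  have h2 := hp.two_le
  obtain ⟨a, rfl⟩ := ho
  omega

lemma T_small (N p : ℕ) : (T N p).card ≤ p := by
  rcases (T N p).eq_empty_or_nonempty with h | ⟨q0, h0⟩
  · rw [h]; simp
  · obtain ⟨h1, h2, -⟩ := mem_T h0
    apply small_count p (three_le h1 h2) h2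
    intro q hq
    obtain ⟨-, -, h3, h4, -, -, h5⟩ := mem_T hq
    exact ⟨h3, red p q h3 h2 h4 h5⟩

lemma T_large (N p H : ℕ) (hH : 0 < H) (h3 : H ^ 3 ≤ p) :
    ((T N p).card : ℝ) ≤ 4 * N / (H : ℝ) ^ 4 := by
  rcases (T N p).eq_empty_or_nonempty with h | ⟨q0, h0⟩
  · rw [h]; simp; positivity
  · obtain ⟨hp, ho, -, -, hlt, hle, -⟩ := mem_T h0
    have : Fact p.Prime := ⟨hp⟩
    have hp3 := three_le hp ho
    have hH2 : 2 * H < p := by
      rcases (show H = 1 ∨ 2 ≤ H by omega) with h | h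
      · omega
      · have : H * 4 ≤ H ^ 3 := by nlinarith [mul_le_mul h h (by omega) (by omega)]
        omega
    have hc : (T N p).card = ((T N p).image (fun q => (q - 1) / 2)).card := by
      rw [card_image_of_injOn]
      intro a ha b hb hab
      obtain ⟨-, -, -, h4, -⟩ := mem_T (mem_coe.1 ha)
      obtain ⟨-, -, -, h5, -⟩ := mem_T (mem_coe.1 hb)
      change (a - 1) / 2 = (b - 1) / 2 at hab
      obtain ⟨x, rfl⟩ := h4
      obtain ⟨y, rfl⟩ := h5
      omega
    have hL := large_count p H (N / p / 2) ho hH hH2 ((T N p).image (fun q => (q - 1) / 2)) (by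
      intro i hi
      rw [mem_image] at hi
      obtain ⟨q, hq, rfl⟩ := hi
      obtain ⟨-, -, h4, h5, -, h6, h7⟩ := mem_T hq
      refine ⟨?_, red q p hp h5 ho (cong_symm h7)⟩
      have : q ≤ N / p := (Nat.le_div_iff_mul_le hp.pos).2 (by rw [mul_comm]; exact h6)
      omega)
    rw [← hc] at hL
    have hpR : (0 : ℝ) < p := by exact_mod_cast hp.pos
    have hHR : (0 : ℝ) < H := by exact_mod_cast hH
    have hH1 : (1 : ℝ) ≤ H := by exact_mod_cast hH
    have h3R : (H : ℝ) ^ 3 ≤ p := by exact_mod_cast h3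
    have hpp : (p : ℝ) * p ≤ N := by
      have : p * p ≤ N := (Nat.mul_le_mul_left p hlt.le).trans hle
      exact_mod_cast this
    have e1 : ((N / p / 2 / p : ℕ) : ℝ) ≤ N / (2 * (p : ℝ) ^ 2) := by
      refine Nat.cast_div_le.trans ?_
      rw [div_le_iff₀ hpR]
      refine Nat.cast_div_le.trans ?_
      have := Nat.cast_div_le (α := ℝ) (m := N) (n := p)
      rw [div_le_iff₀ (by norm_num)]
      refine this.trans (le_of_eq ?_)
      push_cast
      field_simp
    have e2 : ((p / H : ℕ) : ℝ) ≤ p / H := Nat.cast_div_le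
    have e3 : ((∑ h ∈ range H, h : ℕ) : ℝ) ≤ (H : ℝ) ^ 2 / 2 := by
      have := Finset.sum_range_id_mul_two H
      have h5 : (∑ h ∈ range H, h) * 2 ≤ H ^ 2 := by
        rw [this, sq]; exact Nat.mul_le_mul_left _ (Nat.sub_le _ _)
      have h6 : ((∑ h ∈ range H, h : ℕ) : ℝ) * 2 ≤ (H : ℝ) ^ 2 := by exact_mod_cast h5
      linarith
    have hLR : ((T N p).card : ℝ) ≤ (((N / p / 2 / p : ℕ) : ℝ) + 1) * (((p / H : ℕ) : ℝ) + 1 + ((∑ h ∈ range H, h : ℕ) : ℝ)) := by
      exact_mod_cast hL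
    have f1 : ((N / p / 2 / p : ℕ) : ℝ) + 1 ≤ 3 / 2 * (N / (p : ℝ) ^ 2) := by
      have : 1 ≤ N / (p : ℝ) ^ 2 := by rw [le_div_iff₀ (by positivity)]; nlinarith
      have h7 : (N : ℝ) / (2 * (p : ℝ) ^ 2) = 1 / 2 * (N / (p : ℝ) ^ 2) := by field_simp
      rw [h7] at e1
      linarith
    have g1 : (H : ℝ) ≤ p := by nlinarith [mul_pos hHR hHR]
    have f2 : ((p / H : ℕ) : ℝ) + 1 + ((∑ h ∈ range H, h : ℕ) : ℝ) ≤ 5 / 2 * (p / H) := by
      have h8 : (1 : ℝ) ≤ p / H := by rw [le_div_iff₀ hHR]; linarith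
      have h9 : (H : ℝ) ^ 2 ≤ p / H := by rw [le_div_iff₀ hHR]; nlinarith
      linarith
    have f3 : ((T N p).card : ℝ) ≤ (3 / 2 * (N / (p : ℝ) ^ 2)) * (5 / 2 * (p / H)) :=
      hLR.trans (mul_le_mul f1 f2 (by positivity) (by positivity))
    refine f3.trans ?_
    have f4 : (3 / 2 * (N / (p : ℝ) ^ 2)) * (5 / 2 * (p / H)) = 15 / 4 * N / (p * H) := by
      field_simp
      try ring
    rw [f4, div_le_div_iff₀ (by positivity) (by positivity)]
    have f5 : (H : ℝ) ^ 4 ≤ p * H := by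
      calc (H : ℝ) ^ 4 = (H : ℝ) ^ 3 * H := by ring
        _ ≤ (p : ℝ) * H := mul_le_mul_of_nonneg_right h3R hHR.le
    have hN : (0 : ℝ) ≤ N := Nat.cast_nonneg _
    nlinarith [mul_le_mul_of_nonneg_left f5 hN, mul_nonneg hN (mul_pos hpR hHR).le]

lemma block_sum (N m : ℕ) (hm : 1 ≤ m) (M : ℕ) (hM : m ≤ M) :
    ∑ p ∈ Ico (m ^ 3) (M ^ 3), ((T N p).card : ℝ) ≤ 56 * N * (1 / m - 1 / M) := by
  induction M, hM using Nat.le_induction with
  | base => simp
  | succ M hM ih =>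
    have h1 : m ^ 3 ≤ M ^ 3 := Nat.pow_le_pow_left hM 3
    have h2 : M ^ 3 ≤ (M + 1) ^ 3 := Nat.pow_le_pow_left (by omega) 3
    rw [← sum_Ico_consecutive _ h1 h2]
    have hMpos : 0 < M := by omega
    have hMR : (1 : ℝ) ≤ M := by exact_mod_cast hMpos
    have h3 : ∑ p ∈ Ico (M ^ 3) ((M + 1) ^ 3), ((T N p).card : ℝ) ≤
        ∑ p ∈ Ico (M ^ 3) ((M + 1) ^ 3), 4 * N / (M : ℝ) ^ 4 :=
      sum_le_sum fun p hp => T_large N p M hMpos (mem_Ico.1 hp).1
    rw [sum_const, Nat.card_Ico, nsmul_eq_mul, Nat.cast_sub h2] at h3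
    push_cast at h3
    have hN : (0 : ℝ) ≤ N := Nat.cast_nonneg _
    have h4 : (((M : ℝ) + 1) ^ 3 - (M : ℝ) ^ 3) * (4 * N / (M : ℝ) ^ 4) ≤ 56 * N * (1 / M - 1 / ((M : ℝ) + 1)) := by
      have h5 : (56 : ℝ) * N * (1 / M - 1 / ((M : ℝ) + 1)) = 56 * N / (M * (M + 1)) := by
        field_simp
        try ring
      rw [h5, ← mul_div_assoc, div_le_div_iff₀ (by positivity) (by positivity)]
      have h6 : ((M : ℝ) + 1) ^ 3 - (M : ℝ) ^ 3 ≤ 7 * (M : ℝ) ^ 2 := by nlinarith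
      have h7 : (0 : ℝ) ≤ 4 * N * (M * (M + 1)) := by positivity
      have h8 := mul_le_mul_of_nonneg_right h6 h7
      have h9 : 7 * (M : ℝ) ^ 2 * (4 * N * (M * (M + 1))) ≤ 56 * N * (M : ℝ) ^ 4 := by
        have : 0 ≤ N * (M : ℝ) ^ 3 := by positivity
        nlinarith
      nlinarith
    push_cast
    have h10 : (56 : ℝ) * N * (1 / m - 1 / ((M : ℝ) + 1)) = 56 * N * (1 / m - 1 / M) + 56 * N * (1 / M - 1 / ((M : ℝ) + 1)) := by ring
    rw [h10]
    exact add_le_add ih (h3.trans h4)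

/-- the odd semiprimes `n ≤ N` with the congruence -/
def E (N : ℕ) : Set ℕ :=
  {n | n ≤ N ∧ ∃ p q : ℕ, p.Prime ∧ q.Prime ∧ Odd p ∧ Odd q ∧ p ≠ q ∧ n = p * q ∧
    ((Nat.choose (n - 1) ((n - 1) / 2) : ℤ) ≡ (-1 : ℤ) ^ ((n - 1) / 2) [ZMOD (n : ℤ)])}

lemma E_sub (N : ℕ) (hN : 1 ≤ N) : E N ⊆ ↑((range (N ^ 3)).biUnion fun p => (T N p).image (fun q => p * q)) := by
  classical
  have key : ∀ p q : ℕ, p.Prime → q.Prime → Odd p → Odd q → p < q → p * q ≤ N → Cong p q →
      p * q ∈ ((range (N ^ 3)).biUnion fun p => (T N p).image (fun q => p * q)) := by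
    intro p q hp hq hop hoq hlt hle hC
    rw [mem_biUnion]
    have hqN : q ≤ N := (Nat.le_mul_of_pos_left q hp.pos).trans hle
    have hN3 : N ≤ N ^ 3 := Nat.le_self_pow (by norm_num) N
    refine ⟨p, mem_range.2 (by omega), mem_image.2 ⟨q, ?_, rfl⟩⟩
    unfold T
    rw [mem_filter, mem_range]
    exact ⟨by omega, hp, hop, hq, hoq, hlt, hle, hC⟩
  rintro n ⟨hn, p, q, hp, hq, hop, hoq, hne, rfl, hC⟩
  rw [mem_coe]
  rcases lt_or_gt_of_ne hne with h | h
  · exact key p q hp hq hop hoq h hn hC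
  · rw [mul_comm]
    exact key q p hq hp hoq hop h (by rw [mul_comm]; exact hn) (cong_symm hC)

lemma E_card (N : ℕ) (hN : 1 ≤ N) : (E N).ncard ≤ ∑ p ∈ range (N ^ 3), (T N p).card := by
  classical
  have h1 := Set.ncard_le_ncard (E_sub N hN) (Finset.finite_toSet _)
  rw [Set.ncard_coe_finset] at h1
  exact h1.trans (card_biUnion_le.trans (sum_le_sum fun p _ => card_image_le))

theorem main7 (m : ℕ) (hm : 1 ≤ m) : ((E (m ^ 7)).ncard : ℝ) ≤ 57 * (m : ℝ) ^ 6 := by
  have h0 : 1 ≤ m ^ 7 := Nat.one_le_pow _ _ hm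
  have h1 : ((E (m ^ 7)).ncard : ℝ) ≤ ∑ p ∈ range ((m ^ 7) ^ 3), ((T (m ^ 7) p).card : ℝ) := by
    exact_mod_cast E_card (m ^ 7) h0
  have hle : m ^ 3 ≤ (m ^ 7) ^ 3 := Nat.pow_le_pow_left (Nat.le_self_pow (by norm_num) m) 3
  have hm7 : m ≤ m ^ 7 := Nat.le_self_pow (by norm_num) m
  have h2 := block_sum (m ^ 7) m hm (m ^ 7) hm7
  have h3 : ∑ p ∈ range (m ^ 3), ((T (m ^ 7) p).card : ℝ) ≤ (m : ℝ) ^ 6 := by
    calc ∑ p ∈ range (m ^ 3), ((T (m ^ 7) p).card : ℝ) ≤ ∑ p ∈ range (m ^ 3), (m : ℝ) ^ 3 := by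
          apply sum_le_sum
          intro p hp
          have h4 : (T (m ^ 7) p).card ≤ m ^ 3 := (T_small _ p).trans (mem_range.1 hp).le
          exact_mod_cast h4
      _ = (m : ℝ) ^ 6 := by rw [sum_const, card_range, nsmul_eq_mul]; push_cast; ring
  rw [← sum_range_add_sum_Ico _ hle] at h1
  have hmR : (1 : ℝ) ≤ m := by exact_mod_cast hm
  have h5 : (56 : ℝ) * ((m ^ 7 : ℕ) : ℝ) * (1 / m - 1 / ((m ^ 7 : ℕ) : ℝ)) ≤ 56 * (m : ℝ) ^ 6 := by
    have h6 : (0 : ℝ) < ((m ^ 7 : ℕ) : ℝ) := by exact_mod_cast h0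
    have h7 : (56 : ℝ) * ((m ^ 7 : ℕ) : ℝ) * (1 / m - 1 / ((m ^ 7 : ℕ) : ℝ)) = 56 * (((m ^ 7 : ℕ) : ℝ) / m) - 56 := by
      field_simp
    have h8 : ((m ^ 7 : ℕ) : ℝ) / m = (m : ℝ) ^ 6 := by
      push_cast
      field_simp
    rw [h7, h8]
    linarith
  linarith

theorem mainR (N : ℕ) (hN : 1 ≤ N) : ((E N).ncard : ℝ) ≤ 3648 * (N : ℝ) ^ (6 / 7 : ℝ) := by
  have hNR : (1 : ℝ) ≤ N := by exact_mod_cast hN
  have h0 : (1 : ℝ) ≤ (N : ℝ) ^ (1 / 7 : ℝ) := Real.one_le_rpow hNR (by norm_num)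
  obtain ⟨m, hm⟩ : ∃ m : ℕ, m = ⌈(N : ℝ) ^ (1 / 7 : ℝ)⌉₊ := ⟨_, rfl⟩
  have h1 : (N : ℝ) ^ (1 / 7 : ℝ) ≤ m := by rw [hm]; exact Nat.le_ceil _
  have h2 : (m : ℝ) ≤ 2 * (N : ℝ) ^ (1 / 7 : ℝ) := by
    have := Nat.ceil_lt_add_one (a := (N : ℝ) ^ (1 / 7 : ℝ)) (by positivity)
    rw [← hm] at this
    linarith
  have hm1 : 1 ≤ m := by
    have : (1 : ℝ) ≤ m := h0.trans h1
    exact_mod_cast this
  have h3 : N ≤ m ^ 7 := by
    have h4 : ((N : ℝ) ^ (1 / 7 : ℝ)) ^ 7 ≤ (m : ℝ) ^ 7 := pow_le_pow_left₀ (by positivity) h1 7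
    have h5 : ((N : ℝ) ^ (1 / 7 : ℝ)) ^ 7 = N := by
      rw [← Real.rpow_natCast, ← Real.rpow_mul (by positivity)]
      norm_num
    rw [h5] at h4
    exact_mod_cast h4
  have h6 : E N ⊆ E (m ^ 7) := by
    rintro n ⟨hn, h⟩
    exact ⟨hn.trans h3, h⟩
  have hfin : (E (m ^ 7)).Finite := (Set.finite_Iic (m ^ 7)).subset fun n hn => hn.1
  have h7 : ((E N).ncard : ℝ) ≤ ((E (m ^ 7)).ncard : ℝ) := by exact_mod_cast Set.ncard_le_ncard h6 hfin
  have h8 : (m : ℝ) ^ 6 ≤ (2 * (N : ℝ) ^ (1 / 7 : ℝ)) ^ 6 := pow_le_pow_left₀ (by positivity) h2 6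
  have h9 : (2 * (N : ℝ) ^ (1 / 7 : ℝ)) ^ 6 = 64 * (N : ℝ) ^ (6 / 7 : ℝ) := by
    rw [mul_pow, ← Real.rpow_natCast ((N : ℝ) ^ (1 / 7 : ℝ)), ← Real.rpow_mul (by positivity)]
    norm_num
  have := main7 m hm1
  rw [h9] at h8
  linarith

/-- The number of exceptions up to `N` is `O(N^(6/7))`. -/
theorem result :
    (∀ m : ℕ, 1 ≤ m → ((E (m ^ 7)).ncard : ℝ) ≤ 57 * (m : ℝ) ^ 6) ∧
    (∀ N : ℕ, 1 ≤ N → ((E N).ncard : ℝ) ≤ 3648 * (N : ℝ) ^ (6 / 7 : ℝ)) :=
  ⟨main7, mainR⟩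

end Pool.Agent.Results.MP_8dd8b0_nt.FewExceptions
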